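import Pool.Agent.Q178.Orth.Final

set_option autoImplicit false

/-!
The Quillen negation monoid of the category of topological spaces: tests with small maps.
-/

universe u

namespace Q178.QN

open CategoryTheory Set Topology TopologicalSpace Q178.Orth

/-! ### Left and right classes -/

/-- The classes of the form `P.llp`. -/
def IsL (D : MorphismProperty TopCat.{u}) : Prop := D.rlp.llp = D

/-- The classes of the form `P.rlp`. -/
def IsR (D : MorphismProperty TopCat.{u}) : Prop := D.llp.rlp = D

lemma isL_llp (P : MorphismProperty TopCat.{u}) : IsL P.llp := P.llp_rlp_llp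

lemma isR_rlp (P : MorphismProperty TopCat.{u}) : IsR P.rlp := P.rlp_llp_rlp

lemma IsL.mem {D : MorphismProperty TopCat.{u}} (hD : IsL D) {A B A' B' : TopCat.{u}}
    {h : A ⟶ B} {f : A' ⟶ B'} (hh : D h)
    (H : ∀ {X Y : TopCat.{u}} (g : X ⟶ Y), LP h g → LP f g) : D f := by
  rw [← hD, llp_iff]
  intro X Y g hg
  exact H g ((rlp_iff g).1 hg h hh)

lemma IsR.mem {D : MorphismProperty TopCat.{u}} (hD : IsR D) {A B A' B' : TopCat.{u}}
    {h : A ⟶ B} {f : A' ⟶ B'} (hh : D h)
    (H : ∀ {X Y : TopCat.{u}} (g : X ⟶ Y), LP g h → LP g f) : D f := by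
  rw [← hD, rlp_iff]
  intro X Y g hg
  exact H g ((llp_iff g).1 hg h hh)

lemma IsL.iso {D : MorphismProperty TopCat.{u}} (hD : IsL D) : Iso ≤ D := by
  intro A B f hf
  rw [← hD]
  exact iso_llp f hf

lemma IsR.iso {D : MorphismProperty TopCat.{u}} (hD : IsR D) : Iso ≤ D := by
  intro A B f hf
  rw [← hD]
  exact iso_rlp f hf

lemma IsL.le_of_rlp {D E : MorphismProperty TopCat.{u}} (hD : IsL D) (h : D.rlp ≤ E) :
    E.llp ≤ D := by
  rw [← hD]
  exact MorphismProperty.antitone_llp h

lemma IsR.le_of_llp {D E : MorphismProperty TopCat.{u}} (hD : IsR D) (h : D.llp ≤ E) :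
    E.rlp ≤ D := by
  rw [← hD]
  exact MorphismProperty.antitone_rlp h

/-! ### The test maps -/

lemma I2_cases (i : I2.{u}) : i = i0 ∨ i = i1 := by
  obtain ⟨b⟩ := i
  cases b
  · exact Or.inl rfl
  · exact Or.inr rfl

lemma S_cases (p : S.{u}) : p = ⟨True⟩ ∨ p = ⟨False⟩ := by
  obtain ⟨p⟩ := p
  by_cases hp : p
  · left
    rw [eq_true hp]
  · right
    rw [eq_false hp]

lemma cont_of_insep {X : Type u} [TopologicalSpace X] (u : I2.{u} → X)
    (h : Inseparable (u i0) (u i1)) : Continuous u := by
  rw [continuous_def]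
  intro U hU
  have h1 := h.mem_open_iff hU
  by_cases h0 : u i0 ∈ U
  · have : u ⁻¹' U = univ := by
      ext i
      refine ⟨fun _ => trivial, fun _ => ?_⟩
      rcases I2_cases i with rfl | rfl
      · exact h0
      · exact h1.1 h0
    rw [this]
    exact isOpen_univ
  · have : u ⁻¹' U = ∅ := by
      ext i
      refine ⟨fun hi => ?_, fun hi => hi.elim⟩
      rcases I2_cases i with rfl | rfl
      · exact h0 hi
      · exact h0 (h1.2 hi)
    rw [this]
    exact isOpen_empty

lemma cont_of_spec {X : Type u} [TopologicalSpace X] (u : S.{u} → X)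
    (h : u ⟨True⟩ ⤳ u ⟨False⟩) : Continuous u := by
  rw [continuous_def]
  intro U hU
  have h1 := specializes_iff_forall_open.1 h U hU
  by_cases h0 : u ⟨False⟩ ∈ U
  · have : u ⁻¹' U = univ := by
      ext i
      refine ⟨fun _ => trivial, fun _ => ?_⟩
      rcases S_cases i with rfl | rfl
      · exact h1 h0
      · exact h0
    rw [this]
    exact isOpen_univ
  · by_cases h2 : u ⟨True⟩ ∈ U
    · have : u ⁻¹' U = {p | p.down} := by
        ext i
        rcases S_cases i with rfl | rfl
        · exact ⟨fun _ => trivial, fun _ => h2⟩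
        · exact ⟨fun h3 => (h0 h3).elim, fun h3 => (h3 : False).elim⟩
      rw [this]
      exact continuous_Prop.1 continuous_uliftDown
    · have : u ⁻¹' U = ∅ := by
        ext i
        refine ⟨fun hi => ?_, fun hi => hi.elim⟩
        rcases S_cases i with rfl | rfl
        · exact h2 hi
        · exact h0 hi
      rw [this]
      exact isOpen_empty

lemma cont_chi {X : Type u} [TopologicalSpace X] {U : Set X} (hU : IsOpen U) :
    Continuous (fun x => (⟨x ∈ U⟩ : S.{u})) := continuous_toS.2 hU

/-- The map from the indiscrete two-point space to the point. -/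
def tI : TopCat.of I2.{u} ⟶ TopCat.of PUnit.{u + 1} :=
  TopCat.ofHom ⟨toPt I2.{u}, continuous_toPt _⟩

/-- The map from the Sierpinski space to the point. -/
def tS : TopCat.of S.{u} ⟶ TopCat.of PUnit.{u + 1} :=
  TopCat.ofHom ⟨toPt S.{u}, continuous_toPt _⟩

open Classical in
/-- The bijection from the Sierpinski space to the indiscrete two-point space. -/
noncomputable def cFun : S.{u} → I2.{u} := fun p => if p.down then i0 else i1

lemma cFun_true : cFun.{u} ⟨True⟩ = i0 := if_pos trivial

lemma cFun_false : cFun.{u} ⟨False⟩ = i1 := if_neg id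

/-- The bijection from the Sierpinski space to the indiscrete two-point space. -/
noncomputable def cM : TopCat.of S.{u} ⟶ TopCat.of I2.{u} :=
  TopCat.ofHom ⟨cFun, continuous_I2 _⟩

/-- The inclusion of a point in the indiscrete two-point space. -/
def kM : TopCat.of PUnit.{u + 1} ⟶ TopCat.of I2.{u} :=
  TopCat.ofHom ⟨fun _ => i0, continuous_const⟩

/-- The inclusion of the open point in the Sierpinski space. -/
def sM : TopCat.of PUnit.{u + 1} ⟶ TopCat.of S.{u} :=
  TopCat.ofHom ⟨fun _ => ⟨True⟩, continuous_const⟩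

/-- Maps inducing the topology. -/
def Ind : MorphismProperty TopCat.{u} := fun _ _ f => IsInducing f

/-- Maps coinducing the topology. -/
def QD : MorphismProperty TopCat.{u} := fun _ B f => ∀ V : Set B, IsOpen (f ⁻¹' V) → IsOpen V

/-- Every open set which contains the image is everything. -/
def W0 : MorphismProperty TopCat.{u} := fun _ B f =>
  ∀ V : Set B, IsOpen V → range f ⊆ V → V = univ

/-! ### Dichotomies for left classes -/

/-- (N1) -/
lemma N1 {D : MorphismProperty TopCat.{u}} (hD : IsL D) (h : ¬ D tI) : D ≤ Inj := by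
  classical
  intro A B f hf a a' haa
  by_contra hne
  apply h
  refine hD.mem hf fun {X Y} g hfg => ?_
  intro u v hu hv huv
  obtain ⟨k, -, hk, -⟩ := hfg (fun a'' => u (if a'' = a then i0 else i1)) (fun _ => v PUnit.unit)
    (hu.comp (continuous_I2 _)) continuous_const (fun _ => huv _)
  have h1 : u i0 = u i1 := by
    have e1 := hk a
    have e2 := hk a'
    change f a = f a' at haa
    rw [haa, e2] at e1
    rw [if_pos rfl, if_neg (Ne.symm hne)] at e1
    exact e1.symm
  refine ⟨fun _ => u i0, continuous_const, fun i => ?_, fun y => huv i0⟩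
  rcases I2_cases i with rfl | rfl
  · rfl
  · exact h1

lemma T0F_of_I2 {A B : TopCat.{u}} {f : A ⟶ B} (h : LP (toPt I2.{u}) f) : T0F f := by
  intro x y hxy hi
  classical
  have hu : Continuous (fun i : I2.{u} => if i = i0 then x else y) := by
    apply cont_of_insep
    rw [if_pos rfl, if_neg (Ne.symm i0_ne_i1)]
    exact hi
  obtain ⟨k, -, hk, -⟩ := h _ (fun _ => f x) hu continuous_const (by
    intro i
    split_ifs
    · rfl
    · exact hxy.symm)
  have h1 := hk i0
  have h2 := hk i1
  rw [if_pos rfl] at h1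
  rw [if_neg (Ne.symm i0_ne_i1)] at h2
  exact h1.symm.trans h2

lemma IS_le_of_tI {D : MorphismProperty TopCat.{u}} (hD : IsL D) (h : D tI) : IS ≤ D := by
  rw [← T0F_llp_eq]
  apply hD.le_of_rlp
  intro A B f hf
  exact T0F_of_I2 ((rlp_iff f).1 hf tI h)

lemma W1_le_of_tS {D : MorphismProperty TopCat.{u}} (hD : IsL D) (h : D tS) : W1 ≤ D := by
  apply hD.le_of_rlp
  intro A B f hf
  exact T1F_of_S ((rlp_iff f).1 hf tS h)

/-- (N2) -/
lemma N2 {D : MorphismProperty TopCat.{u}} (hD : IsL D) (h1 : ¬ D tS) (h2 : ¬ D cM) :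
    D ≤ Ind := by
  classical
  intro A B h hh
  change IsInducing h
  by_contra hni
  -- a bad open set
  obtain ⟨U, hU, hbad⟩ : ∃ U : Set A, IsOpen U ∧ ∀ V : Set B, IsOpen V → h ⁻¹' V ≠ U := by
    by_contra hcon
    push Not at hcon
    apply hni
    refine ⟨le_antisymm h.hom.continuous.le_induced ?_⟩
    intro U hU
    obtain ⟨V, hV, e⟩ := hcon U hU
    exact ⟨V, hV, e⟩
  by_cases hsat : ∀ a a', h a = h a' → a ∈ U → a' ∈ U
  · apply h2
    refine hD.mem hh fun {X Y} g hg => ?_
    intro u v hu hv huv
    obtain ⟨k, hk, hk1, -⟩ := hg (fun a => u ⟨a ∈ U⟩)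
      (fun b => v (if ∃ a ∈ U, h a = b then i0 else i1)) (hu.comp (cont_chi hU))
      (hv.comp (continuous_I2 _)) (by
        intro a
        rw [huv]
        congr 1
        change cFun _ = _
        by_cases ha : a ∈ U
        · rw [if_pos ⟨a, ha, rfl⟩, eq_true ha]
          exact cFun_true
        · rw [if_neg (by rintro ⟨a', ha', e⟩; exact ha (hsat a' a e ha')), eq_false ha]
          exact cFun_false)
    have hins : Inseparable (u ⟨True⟩) (u ⟨False⟩) := by
      have hs : u ⟨True⟩ ⤳ u ⟨False⟩ := (true_specializes _).map hu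
      apply hs.antisymm
      rw [specializes_iff_forall_open]
      intro O hO hT
      by_contra hF
      refine hbad (k ⁻¹' O) (hO.preimage hk) ?_
      ext a
      simp only [mem_preimage]
      rw [hk1]
      by_cases ha : a ∈ U
      · rw [eq_true ha]
        exact ⟨fun _ => trivial, fun _ => hT⟩
      · rw [eq_false ha]
        exact ⟨fun h3 => (hF h3).elim, fun h3 => h3.elim⟩
    refine ⟨fun i => if i = i0 then u ⟨True⟩ else u ⟨False⟩, ?_, fun p => ?_, fun i => ?_⟩
    · apply cont_of_insep
      rw [if_pos rfl, if_neg (Ne.symm i0_ne_i1)]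
      exact hins
    · rcases S_cases p with rfl | rfl
      · change (if cFun _ = i0 then _ else _) = _
        rw [cFun_true, if_pos rfl]
      · change (if cFun _ = i0 then _ else _) = _
        rw [cFun_false, if_neg (Ne.symm i0_ne_i1)]
    · rcases I2_cases i with rfl | rfl
      · change g (if i0 = i0 then u ⟨True⟩ else u ⟨False⟩) = _
        rw [if_pos rfl, huv]
        change v (cFun _) = _
        rw [cFun_true]
      · change g (if i1 = i0 then u ⟨True⟩ else u ⟨False⟩) = _
        rw [if_neg (Ne.symm i0_ne_i1), huv]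
        change v (cFun _) = _
        rw [cFun_false]
  · push Not at hsat
    obtain ⟨a, a', haa, ha, ha'⟩ := hsat
    apply h1
    refine hD.mem hh fun {X Y} g hg => ?_
    intro u v hu hv huv
    obtain ⟨k, -, hk1, -⟩ := hg (fun a => u ⟨a ∈ U⟩) (fun _ => v PUnit.unit)
      (hu.comp (cont_chi hU)) continuous_const (fun _ => huv _)
    have e1 := hk1 a
    have e2 := hk1 a'
    rw [haa, e2, eq_true ha, eq_false ha'] at e1
    refine ⟨fun _ => u ⟨True⟩, continuous_const, fun p => ?_, fun y => huv _⟩
    rcases S_cases p with rfl | rfl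
    · rfl
    · exact e1.symm

lemma tS_of_c_tI {D : MorphismProperty TopCat.{u}} (hD : IsL D) (h1 : D cM) (h2 : D tI) :
    D tS := by
  rw [← hD, llp_iff]
  intro X Y g hg u v hu hv huv
  obtain ⟨k, hk, hk1, hk2⟩ := (rlp_iff g).1 hg cM h1 u (fun _ => v PUnit.unit) hu
    continuous_const (fun p => huv p)
  obtain ⟨k', hk', hk1', hk2'⟩ := (rlp_iff g).1 hg tI h2 k v hk hv (fun p => hk2 p)
  refine ⟨k', hk', fun p => ?_, hk2'⟩
  rw [← hk1 p]
  exact hk1' (cM p)

/-- (N3) -/
lemma N3 {D : MorphismProperty TopCat.{u}} (h : D cM) : D.llp ≤ QD := by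
  classical
  intro A B f hf V hV
  obtain ⟨k, hk, hk1, hk2⟩ := (llp_iff f).1 hf cM h (fun a => ⟨f a ∈ V⟩)
    (fun b => if b ∈ V then i0 else i1) (cont_chi hV) (continuous_I2 _) (by
      intro a
      change cFun _ = _
      by_cases ha : f a ∈ V
      · rw [if_pos ha, eq_true ha, cFun_true]
      · rw [if_neg ha, eq_false ha, cFun_false])
  have h1 : IsOpen {b | (k b).down} := continuous_Prop.1 (continuous_uliftDown.comp hk)
  convert h1 using 1
  ext b
  have h2 : cFun (k b) = if b ∈ V then i0 else i1 := hk2 b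
  simp only [mem_ofPred_eq]
  constructor
  · intro hb
    rw [if_pos hb] at h2
    rcases S_cases (k b) with h3 | h3
    · rw [h3]
      trivial
    · rw [h3, cFun_false] at h2
      exact (i0_ne_i1 h2.symm).elim
  · intro hb
    by_contra hn
    rw [if_neg hn] at h2
    rcases S_cases (k b) with h3 | h3
    · rw [h3, cFun_true] at h2
      exact i0_ne_i1 h2
    · rw [h3] at hb
      exact hb

/-- `NE` or the map from the empty space to the point. -/
lemma le_NE {D : MorphismProperty TopCat.{u}} (hD : IsL D) (h : ¬ D emptyToPoint) : D ≤ NE := by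
  intro A B f hf hA
  by_contra hB
  obtain ⟨b⟩ := not_isEmpty_iff.1 hB
  apply h
  refine hD.mem hf fun {X Y} g hg => ?_
  intro u v hu hv huv
  obtain ⟨k, -, -, hk⟩ := hg (fun a => (hA.false a).elim) (fun _ => v PUnit.unit)
    (continuous_of_const fun a => (hA.false a).elim) continuous_const
    (fun a => (hA.false a).elim)
  exact ⟨fun _ => k b, continuous_const, fun x => x.elim, fun _ => hk b⟩

lemma rlp_le_Surj {D : MorphismProperty TopCat.{u}} (h : D emptyToPoint) : D.rlp ≤ Surj := by
  rw [← C0_rlp_eq]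
  apply MorphismProperty.antitone_rlp
  rintro A B f ⟨_⟩
  exact h

lemma DSum_le_of_t0 {D : MorphismProperty TopCat.{u}} (hD : IsL D) (h : D emptyToPoint) :
    DSum ≤ D := by
  rw [← Surj_llp_eq]
  exact hD.le_of_rlp (rlp_le_Surj h)

end Q178.QN
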