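import Pool.Agent.Q178.QN.Lists

set_option autoImplicit false

/-!
The Quillen negation monoid of the category of topological spaces is finite.
-/

universe u

namespace Q178.QN

open CategoryTheory Set Topology TopologicalSpace Q178.Orth

/-! ### A criterion for finitely many operators -/

lemma finite_ops {α β : Type*} [Finite β] (step : α → β → α) (F : Set α) (hF : F.Finite) (N : ℕ)
    (h : ∀ (x : α) (w : List β), w.length = N →
      ∃ i, 1 ≤ i ∧ i ≤ N ∧ (w.take i).foldl step x ∈ F) :
    (Set.range (fun (w : List β) (x : α) => w.foldl step x)).Finite := by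
  classical
  let G : Set α := Set.image2 (fun y (v : List β) => v.foldl step y) F {v | v.length ≤ N}
  have hG : G.Finite := Set.Finite.image2 _ hF (List.finite_length_le β N)
  have hmem : ∀ n : ℕ, ∀ w : List β, w.length ≤ n → ∀ y ∈ F, w.foldl step y ∈ G := by
    intro n
    induction n with
    | zero =>
      intro w hw y hy
      exact ⟨y, hy, w, (hw.trans (Nat.zero_le N)), rfl⟩
    | succ n ih =>
      intro w hw y hy
      by_cases hN : w.length ≤ N
      · exact ⟨y, hy, w, hN, rfl⟩
      · push Not at hN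
        obtain ⟨i, hi1, hi2, hi3⟩ := h y (w.take N) (by
          rw [List.length_take]
          omega)
        rw [List.take_take, min_eq_left hi2] at hi3
        have h1 := ih (w.drop i) (by
          rw [List.length_drop]
          omega) _ hi3
        rwa [← List.foldl_append, List.take_append_drop] at h1
  have hmem' : ∀ (w : List β) (y : F), w.foldl step y.1 ∈ G :=
    fun w y => hmem _ w le_rfl y.1 y.2
  let Φ : List β → {l : List β | l.length ≤ N} × (Fin (N + 1) → F → G) := fun w =>
    (⟨w.take N, by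
      rw [mem_ofPred_eq, List.length_take]
      omega⟩, fun i y => ⟨(w.drop i).foldl step y.1, hmem' _ y⟩)
  have hfin1 : Finite {l : List β | l.length ≤ N} := (List.finite_length_le β N).to_subtype
  have hfin2 : Finite F := hF.to_subtype
  have hfin3 : Finite G := hG.to_subtype
  have hfact : Function.FactorsThrough (fun (w : List β) (x : α) => w.foldl step x) Φ := by
    intro w₁ w₂ hw
    have e1 : w₁.take N = w₂.take N := congrArg (fun p => p.1.1) hw
    have e2 : ∀ (i : ℕ), i ≤ N → ∀ y ∈ F, (w₁.drop i).foldl step y = (w₂.drop i).foldl step y := by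
      intro i hi y hy
      have := congrArg (fun p => (p.2 ⟨i, by omega⟩ ⟨y, hy⟩).1) hw
      exact this
    by_cases hN : N ≤ w₁.length
    · have hN2 : N ≤ w₂.length := by
        have := congrArg List.length e1
        rw [List.length_take, List.length_take] at this
        omega
      funext x
      obtain ⟨i, hi1, hi2, hi3⟩ := h x (w₁.take N) (by
        rw [List.length_take]
        omega)
      have hi4 := hi3
      rw [e1, List.take_take, min_eq_left hi2] at hi4
      rw [List.take_take, min_eq_left hi2] at hi3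
      have e3 : w₁.take i = w₂.take i := by
        have := congrArg (List.take i) e1
        rwa [List.take_take, List.take_take, min_eq_left hi2] at this
      have e4 := e2 i hi2 _ hi3
      rw [← List.foldl_append, List.take_append_drop, e3, ← List.foldl_append,
        List.take_append_drop] at e4
      exact e4
    · push Not at hN
      have h1 : w₁.take N = w₁ := List.take_of_length_le hN.le
      have h2 : w₂.length < N := by
        have := congrArg List.length e1
        rw [List.length_take, List.length_take] at this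
        omega
      have h3 : w₂.take N = w₂ := List.take_of_length_le h2.le
      rw [h1, h3] at e1
      rw [e1]
  refine (Set.finite_range (Function.extend Φ (fun (w : List β) (x : α) => w.foldl step x)
    (fun _ x => x))).subset ?_
  rintro _ ⟨w, rfl⟩
  exact ⟨Φ w, hfact.extend_apply _ w⟩

/-! ### The moves -/

/-- The left classes. -/
abbrev LC : Type (u + 1) := {D : MorphismProperty TopCat.{u} // IsL D}

/-- The two moves on the left classes. -/
def mv (x : LC.{u}) : Letter → LC.{u}
  | Letter.l => ⟨x.1.llp, isL_llp _⟩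
  | Letter.r => ⟨x.1.rlp.rlp.llp, isL_llp _⟩

/-- The list of the exceptional classes. -/
def FL : Set (MorphismProperty TopCat.{u}) :=
  {Iso, DSum, DSum ⊓ NE, FF Iso, FF DSum, FF (DSum ⊓ NE), Iso.llp, IS.llp, Ind.rlp.llp,
    RInj.llp, W1} ∪ range (fun t : Prop × Prop × Prop => ZY t.1 t.2.1 t.2.2)

lemma FL_finite : (FL.{u}).Finite := by
  apply Set.Finite.union
  · simp only [Set.finite_insert, Set.finite_singleton]
  · exact Set.finite_range _

/-- The exceptional classes. -/
def FS : Set LC.{u} := Subtype.val ⁻¹' FL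

lemma FS_finite : (FS.{u}).Finite := FL_finite.preimage Subtype.val_injective.injOn

/-- Some nonempty prefix of `w` leads from `x` to an exceptional class. -/
def Hit (x : LC.{u}) (w : List Letter) : Prop :=
  ∃ i, 1 ≤ i ∧ i ≤ w.length ∧ (w.take i).foldl mv x ∈ FS

lemma Hit.of_mem {x : LC.{u}} {a : Letter} {w : List Letter} (h : mv x a ∈ FS) :
    Hit x (a :: w) := by
  refine ⟨1, le_rfl, ?_, ?_⟩
  · rw [List.length_cons]
    omega
  · exact h

lemma Hit.cons {x : LC.{u}} {a : Letter} {w : List Letter} (h : Hit (mv x a) w) :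
    Hit x (a :: w) := by
  obtain ⟨i, h1, h2, h3⟩ := h
  refine ⟨i + 1, by omega, ?_, ?_⟩
  · rw [List.length_cons]
    omega
  · exact h3

lemma mem_FS_of_c_or_tS {x : LC.{u}} (h : x.1 cM ∨ x.1 tS) : mv x Letter.l ∈ FS := by
  have key : x.1 tS → mv x Letter.l ∈ FS := by
    intro h1
    change x.1.llp ∈ FL
    rcases llp_of_tS x.2 h1 with h2 | h2 | h2 <;> rw [h2] <;> simp [FL]
  rcases h with h | h
  · by_cases hI : x.1 tI
    · exact key (tS_of_c_tI x.2 h hI)
    · change x.1.llp ∈ FL
      rcases llp_of_c h (N1 x.2 hI) with h2 | h2 | h2 <;> rw [h2] <;> simp [FL]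
  · exact key h

lemma mem_FS_of_Surj {x : LC.{u}} (h : x.1 ≤ Surj) : mv x Letter.r ∈ FS := by
  change x.1.rlp.rlp.llp ∈ FL
  have h1 : x.1.rlp.rlp ≤ RInj := by
    rw [RInj, ← Surj_rlp_eq]
    exact MorphismProperty.antitone_rlp (MorphismProperty.antitone_rlp h)
  rcases N6 (isR_rlp _) h1 with h2 | h2 | h2 | h2 <;> rw [h2] <;> simp [FL]

lemma mem_FS_of_between {x : LC.{u}} (hC : ClEmb ≤ x.1) (hI : x.1 ≤ Ind) (a : Letter) :
    mv x a ∈ FS := by
  cases a
  · change x.1.llp ∈ FL
    rw [N8 x.2 hC hI]
    exact Or.inr ⟨(_, _, _), rfl⟩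
  · change x.1.rlp.rlp.llp ∈ FL
    rw [N8r hC hI]
    simp [FL]

lemma hit_l (x : LC.{u}) (a b : Letter) (w : List Letter) : Hit x (Letter.l :: a :: b :: w) := by
  by_cases h1 : x.1 cM ∨ x.1 tS
  · exact Hit.of_mem (mem_FS_of_c_or_tS h1)
  push Not at h1
  have hI := N2 x.2 h1.2 h1.1
  have hc : (mv x Letter.l).1 cM := MorphismProperty.antitone_llp hI cM Ind_llp_cM
  cases a
  · exact Hit.cons (Hit.of_mem (mem_FS_of_c_or_tS (Or.inl hc)))
  by_cases hS : x.1 ≤ Surj
  · apply Hit.of_mem
    change x.1.llp ∈ FL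
    have hIS : x.1 ≤ IS := fun A B f hf => ⟨hS f hf, hI f hf⟩
    by_cases ht : x.1 tI
    · rw [le_antisymm hIS (IS_le_of_tI x.2 ht)]
      simp [FL]
    · have : x.1 = Iso := by
        apply le_antisymm _ x.2.iso
        intro A B f hf
        exact iso_of_IS_Inj f (hIS f hf) (N1 x.2 ht f hf)
      rw [this]
      simp [FL]
  · obtain ⟨A, B, h, hh, hns⟩ : ∃ (A B : TopCat.{u}) (h : A ⟶ B), x.1 h ∧ ¬ Surj h := by
      by_contra hcon
      push Not at hcon
      exact hS hcon
    obtain ⟨b0, hb0⟩ : ∃ b0, b0 ∉ range h := by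
      by_contra hcon
      push Not at hcon
      exact hns hcon
    have hCD := N7 x.2 h hh b0 hb0
    have h2 : CC ≤ x.1.llp.rlp := MorphismProperty.antitone_rlp hCD
    have h3 : x.1.llp.rlp.rlp ≤ Gen := by
      rw [← CC_rlp_eq]
      exact MorphismProperty.antitone_rlp h2
    have h4 : ClEmb ≤ x.1.llp.rlp.rlp.llp := by
      rw [← Gen_llp_eq]
      exact MorphismProperty.antitone_llp h3
    have h5 : x.1.llp.rlp ≤ Ind :=
      (MorphismProperty.antitone_rlp (MorphismProperty.antitone_llp hI)).trans Ind_llp_rlp_le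
    have h6 : x.1.llp.rlp.rlp.llp ≤ Ind :=
      (MorphismProperty.antitone_llp (MorphismProperty.antitone_rlp h5)).trans Ind_rlp_llp_le
    exact Hit.cons (Hit.cons (Hit.of_mem (mem_FS_of_between h4 h6 b)))

lemma r_le_Surj {x : LC.{u}} (h : x.1 emptyToPoint) : (mv x Letter.r).1 ≤ Surj := by
  change x.1.rlp.rlp.llp ≤ Surj
  rw [← Emb_llp_eq]
  apply MorphismProperty.antitone_llp
  rw [← Surj_rlp_eq]
  exact MorphismProperty.antitone_rlp (rlp_le_Surj h)

lemma Sum_emptyToPoint : Orth.Sum.{u} emptyToPoint := by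
  refine ⟨.of_continuous_injective_isOpenMap (emptyToPoint.{u}).hom.continuous
    (fun x => x.elim) (fun U _ => isOpen_discrete _), isClosed_discrete _⟩

lemma r_t0 {x : LC.{u}} (h : x.1 ≤ NE) : (mv x Letter.r).1 emptyToPoint := by
  change x.1.rlp.rlp.llp emptyToPoint
  have h1 : E0 ≤ x.1.rlp := by
    rw [← NE_rlp_eq]
    exact MorphismProperty.antitone_rlp h
  have h2 : x.1.rlp.rlp ≤ Ret := by
    rw [← E0_rlp_eq]
    exact MorphismProperty.antitone_rlp h1
  have h3 : Orth.Sum ≤ x.1.rlp.rlp.llp := by
    rw [← Ret_llp_eq]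
    exact MorphismProperty.antitone_llp h2
  exact h3 _ Sum_emptyToPoint

lemma hit_rrr (x : LC.{u}) (w : List Letter) :
    Hit x (Letter.r :: Letter.r :: Letter.r :: w) := by
  by_cases h : x.1 emptyToPoint
  · exact Hit.cons (Hit.of_mem (mem_FS_of_Surj (r_le_Surj h)))
  · exact Hit.cons (Hit.cons (Hit.of_mem (mem_FS_of_Surj (r_le_Surj (r_t0 (le_NE x.2 h))))))

lemma hit_five (x : LC.{u}) (w : List Letter) (hw : w.length = 5) : Hit x w := by
  obtain _ | ⟨a, _ | ⟨b, _ | ⟨c, _ | ⟨d, _ | ⟨e, w⟩⟩⟩⟩⟩ := w
  · simp at hw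
  · simp at hw
  · simp at hw
  · simp at hw
  · simp at hw
  cases a
  · exact hit_l x _ _ _
  cases b
  · exact Hit.cons (hit_l _ _ _ _)
  cases c
  · exact Hit.cons (Hit.cons (hit_l _ _ _ _))
  · exact hit_rrr x _

instance : Finite Letter := by
  refine Finite.of_injective (fun a : Letter => match a with
    | Letter.l => true
    | Letter.r => false) ?_
  intro a b h
  cases a <;> cases b <;> simp at h ⊢

lemma finite_moves :
    (Set.range (fun (w : List Letter) (x : LC.{u}) => w.foldl mv x)).Finite := by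
  refine finite_ops mv FS FS_finite 5 fun x w hw => ?_
  obtain ⟨i, h1, h2, h3⟩ := hit_five x w hw
  exact ⟨i, h1, by omega, h3⟩

/-! ### All words -/

lemma words (w : List Letter) :
    (∃ m : List Letter, (∀ x : LC.{u}, w.foldl orth x.1 = (m.foldl mv x).1) ∨
      (∀ x : LC.{u}, w.foldl orth x.1 = (m.foldl mv x).1.rlp)) ∧
    (∃ m : List Letter, (∀ x : LC.{u}, w.foldl orth x.1.rlp = (m.foldl mv x).1) ∨
      (∀ x : LC.{u}, w.foldl orth x.1.rlp = (m.foldl mv x).1.rlp)) := by
  induction w with
  | nil => exact ⟨⟨[], Or.inl fun _ => rfl⟩, ⟨[], Or.inr fun _ => rfl⟩⟩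
  | cons a w ih =>
    obtain ⟨⟨m, hm⟩, ⟨m', hm'⟩⟩ := ih
    cases a
    · constructor
      · refine ⟨Letter.l :: m, ?_⟩
        rcases hm with hm | hm
        · exact Or.inl fun x => hm (mv x Letter.l)
        · exact Or.inr fun x => hm (mv x Letter.l)
      · refine ⟨m, ?_⟩
        rcases hm with hm | hm
        · refine Or.inl fun x => ?_
          rw [← hm x]
          change w.foldl orth (x.1.rlp.llp) = _
          rw [x.2]
        · refine Or.inr fun x => ?_
          rw [← hm x]
          change w.foldl orth (x.1.rlp.llp) = _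
          rw [x.2]
    · constructor
      · exact ⟨m', hm'⟩
      · refine ⟨Letter.r :: m', ?_⟩
        have e : ∀ x : LC.{u}, x.1.rlp.rlp = (mv x Letter.r).1.rlp :=
          fun x => (MorphismProperty.rlp_llp_rlp _).symm
        rcases hm' with hm' | hm'
        · refine Or.inl fun x => ?_
          have h1 := hm' (mv x Letter.r)
          rw [← e] at h1
          exact h1
        · refine Or.inr fun x => ?_
          have h1 := hm' (mv x Letter.r)
          rw [← e] at h1
          exact h1

/-- There are only finitely many different operators `P ↦ P ^ w`. -/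
theorem finite_operators :
    (Set.range (fun (w : List Letter) (P : MorphismProperty TopCat.{u}) =>
      w.foldl orth P)).Finite := by
  have hfin := finite_moves.{u}
  let M := Set.range (fun (w : List Letter) (x : LC.{u}) => w.foldl mv x)
  let p1 : (LC.{u} → LC.{u}) → MorphismProperty TopCat.{u} → MorphismProperty TopCat.{u} :=
    fun O P => (O ⟨P.llp, isL_llp P⟩).1
  let p2 : (LC.{u} → LC.{u}) → MorphismProperty TopCat.{u} → MorphismProperty TopCat.{u} :=
    fun O P => (O ⟨P.llp, isL_llp P⟩).1.rlp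
  let p3 : (LC.{u} → LC.{u}) → MorphismProperty TopCat.{u} → MorphismProperty TopCat.{u} :=
    fun O P => (O ⟨P.rlp.llp, isL_llp _⟩).1
  let p4 : (LC.{u} → LC.{u}) → MorphismProperty TopCat.{u} → MorphismProperty TopCat.{u} :=
    fun O P => (O ⟨P.rlp.llp, isL_llp _⟩).1.rlp
  have hunion : ({fun P => P} ∪ (p1 '' M ∪ (p2 '' M ∪ (p3 '' M ∪ p4 '' M)))).Finite :=
    (Set.finite_singleton _).union ((hfin.image _).union ((hfin.image _).union
      ((hfin.image _).union (hfin.image _))))
  refine hunion.subset ?_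
  rintro _ ⟨w, rfl⟩
  rcases w with _ | ⟨a, w⟩
  · exact Or.inl rfl
  right
  obtain ⟨⟨m, hm⟩, ⟨m', hm'⟩⟩ := words.{u} w
  cases a
  · rcases hm with hm | hm
    · left
      refine ⟨_, ⟨m, rfl⟩, ?_⟩
      funext P
      exact (hm ⟨P.llp, isL_llp P⟩).symm
    · right; left
      refine ⟨_, ⟨m, rfl⟩, ?_⟩
      funext P
      exact (hm ⟨P.llp, isL_llp P⟩).symm
  · have e : ∀ P : MorphismProperty TopCat.{u}, P.rlp.llp.rlp = P.rlp :=
      fun P => P.rlp_llp_rlp
    rcases hm' with hm' | hm'
    · right; right; left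
      refine ⟨_, ⟨m', rfl⟩, ?_⟩
      funext P
      have h1 := hm' ⟨P.rlp.llp, isL_llp _⟩
      simp only [e] at h1
      exact h1.symm
    · right; right; right
      refine ⟨_, ⟨m', rfl⟩, ?_⟩
      funext P
      have h1 := hm' ⟨P.rlp.llp, isL_llp _⟩
      simp only [e] at h1
      exact h1.symm

end Q178.QN
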