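import Pool.Agent.Q178.QN.Basic

set_option autoImplicit false

/-!
The Quillen negation monoid of the category of topological spaces: intervals of left classes with
finitely many members.
-/

universe u

namespace Q178.QN

open CategoryTheory Set Topology TopologicalSpace Q178.Orth

/-! ### Left classes inside `DSum` -/

lemma lift_DSum {A B X Y : TopCat.{u}} (f : A ⟶ B) (hfd : DSum f) (g : X ⟶ Y) (u : A → X)
    (v : B → Y) (hu : Continuous u) (huv : ∀ a, g (u a) = v (f a))
    (hr : ∀ b, b ∉ range f → ∃ x, g x = v b) :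
    ∃ k : B → X, Continuous k ∧ (∀ a, k (f a) = u a) ∧ ∀ b, g (k b) = v b := by
  obtain ⟨hf, hd⟩ := hfd
  classical
  let e := hf.isEmbedding.toHomeomorph
  let k : B → X := fun b => if hb : b ∈ range f then u (e.symm ⟨b, hb⟩) else
    (hr b hb).choose
  have hk1 : ∀ a, k (f a) = u a := by
    intro a
    have : (⟨f a, mem_range_self a⟩ : range f) = e a := rfl
    simp only [k, mem_range_self, dif_pos]
    rw [this, e.symm_apply_apply]
  refine ⟨k, ?_, hk1, ?_⟩
  · rw [continuous_iff_continuousAt]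
    intro b
    by_cases hb : b ∈ range f
    · obtain ⟨a, rfl⟩ := hb
      rw [← hf.continuousAt_iff]
      have : (k ∘ f) = u := funext hk1
      rw [this]
      exact hu.continuousAt
    · have h1 : 𝓝 b = pure b := (isOpen_singleton_iff_nhds_eq_pure b).1 (hd b hb)
      rw [ContinuousAt, h1]
      exact (Filter.tendsto_pure_pure k b).mono_right (pure_le_nhds _)
  · intro b
    by_cases hb : b ∈ range f
    · obtain ⟨a, rfl⟩ := hb
      rw [hk1, huv]
    · simp only [k, dif_neg hb]
      exact (hr b hb).choose_spec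

open Classical in
lemma cont_ite_clopen {B N : Type u} [TopologicalSpace B] [TopologicalSpace N] {U : Set B}
    (hU : IsClopen U) (x y : N) : Continuous (fun b => if b ∈ U then x else y) := by
  rw [continuous_def]
  intro O _
  have : (fun b => if b ∈ U then x else y) ⁻¹' O =
      ({b | b ∈ U ∧ x ∈ O} ∪ {b | b ∉ U ∧ y ∈ O}) := by
    ext b
    by_cases hb : b ∈ U
    · simp [hb]
    · simp [hb]
  rw [this]
  apply IsOpen.union
  · by_cases hx : x ∈ O
    · simpa [hx] using hU.isOpen
    · simp [hx]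
  · by_cases hy : y ∈ O
    · have : {b | b ∉ U ∧ y ∈ O} = Uᶜ := by
        ext b
        simp [hy]
      rw [this]
      exact hU.isClosed.isOpen_compl
    · simp [hy]

lemma Iso_le_DSum : Iso.{u} ≤ DSum := by
  intro A B f hf
  have hf' : IsHomeomorph f := hf
  refine ⟨hf'.isOpenEmbedding, fun b hb => ?_⟩
  exact (hb (hf'.surjective b)).elim

/-- (N4) -/
lemma N4 {X : MorphismProperty TopCat.{u}} (hX : IsL X) :
    X ⊓ DSum = Iso ∨ X ⊓ DSum = DSum ∨ X ⊓ DSum = DSum ⊓ NE := by
  classical
  by_cases h : X emptyToPoint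
  · right
    left
    exact inf_eq_right.2 (DSum_le_of_t0 hX h)
  by_cases h2 : ∃ (A B : TopCat.{u}) (f : A ⟶ B), X f ∧ DSum f ∧ ¬ Iso f
  · right
    right
    obtain ⟨A, B, f, hXf, hDf, hni⟩ := h2
    have hNE := le_NE hX h
    obtain ⟨b0, hb0⟩ : ∃ b0, b0 ∉ range f := by
      by_contra hcon
      push Not at hcon
      exact hni (iso_of_DSum_Surj f hDf hcon)
    have hA : Nonempty A := by
      by_contra hA
      exact (hNE f hXf (not_nonempty_iff.1 hA)).false b0
    have hcl : IsClopen (range f) := ⟨(DSum_le_Sum f hDf).2, hDf.1.isOpen_range⟩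
    apply le_antisymm (le_inf inf_le_right (inf_le_left.trans hNE))
    rintro A' B' f' ⟨hD', hN'⟩
    refine ⟨hX.mem hXf fun {M N} g hg => ?_, hD'⟩
    intro u v hu hv huv
    refine lift_DSum f' hD' g u v hu huv fun b' hb' => ?_
    have hA' : Nonempty A' := by
      by_contra hA'
      exact (hN' (not_nonempty_iff.1 hA')).false b'
    obtain ⟨a'⟩ := hA'
    obtain ⟨k, -, -, hk⟩ := hg (fun _ => u a') (fun b => if b ∈ range f then v (f' a') else v b')
      continuous_const (cont_ite_clopen hcl _ _) (by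
        intro a
        rw [if_pos (mem_range_self a)]
        exact huv a')
    have h3 := hk b0
    rw [if_neg hb0] at h3
    exact ⟨_, h3⟩
  · left
    push Not at h2
    apply le_antisymm
    · rintro A B f ⟨h3, h4⟩
      exact h2 A B f h3 h4
    · exact le_inf hX.iso Iso_le_DSum

/-! ### Left classes between `Quot` and `QD` -/

/-- The inclusion of the image. -/
def incl {A B : TopCat.{u}} (f : A ⟶ B) : TopCat.of (range f) ⟶ B :=
  TopCat.ofHom ⟨Subtype.val, continuous_subtype_val⟩

/-- The coinducing maps whose image has its inclusion in `Y`. -/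
def FF (Y : MorphismProperty TopCat.{u}) : MorphismProperty TopCat.{u} :=
  fun _ _ f => QD f ∧ Y (incl f)

lemma incl_DSum {A B : TopCat.{u}} (f : A ⟶ B) (hf : QD f) : DSum (incl f) := by
  have hop : IsOpen (range f) := by
    apply hf
    rw [preimage_range]
    exact isOpen_univ
  have hr : range (incl f) = range f := Subtype.range_val
  refine ⟨hop.isOpenEmbedding_subtypeVal, fun b hb => ?_⟩
  rw [hr] at hb
  apply hf
  have : f ⁻¹' {b} = ∅ := by
    ext a
    simp only [mem_preimage, mem_singleton_iff, mem_empty_iff_false, iff_false]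
    rintro rfl
    exact hb (mem_range_self a)
  rw [this]
  exact isOpen_empty

/-- The map to the image. -/
def toIm {A B : TopCat.{u}} (f : A ⟶ B) : A ⟶ TopCat.of (range f) :=
  TopCat.ofHom ⟨fun a => ⟨f a, mem_range_self a⟩, by fun_prop⟩

lemma toIm_Quot {A B : TopCat.{u}} (f : A ⟶ B) (hf : QD f) : Orth.Quot (toIm f) := by
  change IsQuotientMap (toIm f)
  rw [isQuotientMap_iff]
  refine ⟨.of_isOpen_preimage_iff_isOpen fun V => ⟨fun hV => ?_,
      fun hV => hV.preimage (toIm f).hom.continuous⟩, ?_⟩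
  · have h1 : IsOpen ((Subtype.val : range f → B) '' V) := by
      apply hf
      convert hV using 1
      ext a
      constructor
      · rintro ⟨⟨b, hb⟩, hbV, e⟩
        change b = f a at e
        subst e
        exact hbV
      · intro ha
        exact ⟨_, ha, rfl⟩
    have h2 : V = (Subtype.val : range f → B) ⁻¹' ((Subtype.val : range f → B) '' V) :=
      (preimage_image_eq V Subtype.val_injective).symm
    rw [h2]
    exact h1.preimage continuous_subtype_val
  · rintro ⟨_, a, rfl⟩
    exact ⟨a, rfl⟩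

lemma lp_comp {A B : TopCat.{u}} (f : A ⟶ B) {X Y : TopCat.{u}} (g : X ⟶ Y)
    (h1 : LP (toIm f) g) (h2 : LP (incl f) g) : LP f g := by
  intro u v hu hv huv
  obtain ⟨k, hk, hk1, hk2⟩ := h1 u (fun r => v r.1) hu (hv.comp continuous_subtype_val) huv
  obtain ⟨k', hk', hk1', hk2'⟩ := h2 k v hk hv hk2
  refine ⟨k', hk', fun a => ?_, hk2'⟩
  exact (hk1' ⟨f a, mem_range_self a⟩).trans (hk1 a)

lemma comp_lp {A B : TopCat.{u}} (f : A ⟶ B) {X Y : TopCat.{u}} (g : X ⟶ Y)
    (h1 : LP (toIm g) f) (h2 : LP (incl g) f) : LP g f := lp_comp g f h1 h2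

/-- (N5) -/
lemma N5 {X : MorphismProperty TopCat.{u}} (hX : IsL X) (h1 : Orth.Quot ≤ X) (h2 : X ≤ QD) :
    X = FF (X ⊓ DSum) := by
  ext A B f
  constructor
  · intro hf
    refine ⟨h2 f hf, ?_, incl_DSum f (h2 f hf)⟩
    refine hX.mem hf fun {M N} g hg => ?_
    intro u v hu hv huv
    obtain ⟨k, hk, hk1, hk2⟩ := hg (fun a => u ⟨f a, mem_range_self a⟩) v
      (hu.comp (by fun_prop)) hv (fun a => huv _)
    refine ⟨k, hk, ?_, hk2⟩
    rintro ⟨_, a, rfl⟩
    exact hk1 a
  · rintro ⟨hq, hX1, -⟩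
    rw [← hX, llp_iff]
    intro M N g hg
    exact lp_comp f g ((rlp_iff g).1 hg _ (h1 _ (toIm_Quot f hq))) ((rlp_iff g).1 hg _ hX1)

lemma llp_of_tS {D : MorphismProperty TopCat.{u}} (hD : IsL D) (h : D tS) :
    D.llp = Iso ∨ D.llp = DSum ∨ D.llp = DSum ⊓ NE := by
  have h1 : D.llp ≤ DSum := by
    rw [← W1_llp_eq]
    exact MorphismProperty.antitone_llp (W1_le_of_tS hD h)
  have h2 := N4 (isL_llp D)
  rwa [inf_eq_left.2 h1] at h2

lemma llp_of_c {D : MorphismProperty TopCat.{u}} (h : D cM) (hi : D ≤ Inj) :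
    D.llp = FF Iso ∨ D.llp = FF DSum ∨ D.llp = FF (DSum ⊓ NE) := by
  have h1 : Orth.Quot ≤ D.llp := by
    rw [← Inj_llp_eq]
    exact MorphismProperty.antitone_llp hi
  have h2 := N5 (isL_llp D) h1 (N3 h)
  rcases N4 (isL_llp D) with h3 | h3 | h3
  · rw [h3] at h2
    exact Or.inl h2
  · rw [h3] at h2
    exact Or.inr (Or.inl h2)
  · rw [h3] at h2
    exact Or.inr (Or.inr h2)

/-! ### Right classes inside `RInj` -/

lemma RInj_le_Gen : RInj.{u} ≤ Gen := by
  rw [RInj, ← ClEmb_rlp_eq]
  exact MorphismProperty.antitone_rlp ClEmb_le_Emb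

lemma IS_tI : IS.{u} tI := ⟨surjective_toPt_I2, isInducing_toPt_I2⟩

lemma le_T0F {X : MorphismProperty TopCat.{u}} (hX : IsR X) (h : ¬ X tI) : X ≤ T0F := by
  classical
  intro A B g hg x y hxy hins
  by_contra hne
  apply h
  have h1 : X.llp ≤ Inj := by
    intro A' B' f hf a a' haa
    by_contra hna
    obtain ⟨k, -, hk, -⟩ := (llp_iff f).1 hf g hg
      (fun a'' => if (if a'' = a then i0.{u} else i1) = i0 then x else y) (fun _ => g x)
      ((cont_of_insep (fun i : I2.{u} => if i = i0 then x else y) (by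
        rw [if_pos rfl, if_neg (Ne.symm i0_ne_i1)]
        exact hins)).comp (continuous_I2 (fun a'' => if a'' = a then i0.{u} else i1)))
      continuous_const (by
        intro a''
        split_ifs
        all_goals first | rfl | exact hxy.symm)
    have e1 := hk a
    have e2 := hk a'
    change f a = f a' at haa
    rw [haa, e2] at e1
    rw [if_pos rfl, if_pos rfl, if_neg (Ne.symm hna), if_neg (Ne.symm i0_ne_i1)] at e1
    exact hne e1.symm
  have h2 := hX.le_of_llp h1
  rw [Inj_rlp_eq] at h2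
  exact h2 tI IS_tI

lemma le_IS {X : MorphismProperty TopCat.{u}} (hX : IsR X) (hG : X ≤ Gen) (h : ¬ X tS) :
    X ≤ IS := by
  classical
  intro A B g hg
  obtain ⟨s, hs, hs1, hs2⟩ := hG g hg
  have key : ∀ a, a ⤳ s (g a) := by
    intro a
    rw [specializes_iff_forall_open]
    intro O hO hsO
    by_contra haO
    apply h
    rw [← hX, rlp_iff]
    intro A' B' f hf u v hu hv huv
    have hφ : Continuous (fun p : S.{u} => if p.down then s (g a) else a) := by
      apply cont_of_spec
      rw [if_pos trivial, if_neg id]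
      exact hs2 a
    obtain ⟨k, hk, hk1, hk2⟩ := (llp_iff f).1 hf g hg _ (fun _ => g a) (hφ.comp hu)
      continuous_const (by
        intro a'
        simp only [Function.comp_apply]
        split_ifs
        · exact hs1 _
        · rfl)
    refine ⟨fun b => ⟨b ∈ k ⁻¹' O⟩, cont_chi (hO.preimage hk), fun a' => ?_, fun _ => rfl⟩
    have h3 := hk1 a'
    simp only [Function.comp_apply] at h3
    apply ULift.ext
    apply propext
    change k (f a') ∈ O ↔ (u a').down
    rw [h3]
    rcases S_cases (u a') with h4 | h4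
    · rw [h4, if_pos trivial]
      exact ⟨fun _ => trivial, fun _ => hsO⟩
    · rw [h4, if_neg id]
      exact ⟨fun h5 => (haO h5).elim, fun h5 => (h5 : False).elim⟩
  refine ⟨fun b => ⟨s b, hs1 b⟩, ⟨le_antisymm g.hom.continuous.le_induced ?_⟩⟩
  intro O hO
  refine ⟨s ⁻¹' O, hO.preimage hs, ?_⟩
  ext a
  constructor
  · intro h1
    exact specializes_iff_forall_open.1 (key a) O hO h1
  · intro h1
    exact specializes_iff_forall_open.1 (hs2 a) O hO h1

lemma llp_le_Inj {X : MorphismProperty TopCat.{u}} (h : X tI) : X.llp ≤ Inj :=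
  fun _ _ f hf => inj_of_I2 ((llp_iff f).1 hf tI h)

lemma llp_le_Ind {X : MorphismProperty TopCat.{u}} (h : X tS) : X.llp ≤ Ind :=
  fun _ _ f hf => inducing_of_S ((llp_iff f).1 hf tS h)

lemma Ind_rlp_tS : Ind.{u}.rlp tS := by
  rw [rlp_iff]
  intro X Y g hg u v hu hv huv
  have h1 : IsOpen {x | (u x).down} := continuous_Prop.1 (continuous_uliftDown.comp hu)
  obtain ⟨V, hV, hVU⟩ := (show IsInducing g from hg).isOpen_iff.1 h1
  refine ⟨fun y => ⟨y ∈ V⟩, continuous_toS.2 hV, fun x => ?_, fun y => rfl⟩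
  apply ULift.ext
  apply propext
  have h2 : x ∈ g ⁻¹' V ↔ x ∈ {x | (u x).down} := by rw [hVU]
  exact h2

lemma Emb_le_Ind : Emb.{u} ≤ Ind := fun _ _ _ h => IsEmbedding.isInducing h

lemma IS_le_Ind : IS.{u} ≤ Ind := fun _ _ _ h => h.2

lemma RInj_T0F_le : RInj.{u} ⊓ T0F ≤ Ind.rlp := by
  rintro A B g ⟨h1, h2⟩
  rw [rlp_iff]
  intro A' B' f hf
  have hf' : IsInducing f := hf
  apply lp_comp
  · have h3 : IS.{u}.rlp g := by
      rw [IS_rlp_eq]
      exact h2
    refine (rlp_iff g).1 h3 (toIm f) ⟨?_, ?_⟩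
    · rintro ⟨_, a, rfl⟩
      exact ⟨a, rfl⟩
    · exact IsInducing.of_comp (toIm f).hom.continuous continuous_subtype_val hf'
  · exact (rlp_iff g).1 h1 (incl f) IsEmbedding.subtypeVal

/-- (N6) -/
lemma N6 {X : MorphismProperty TopCat.{u}} (hX : IsR X) (h : X ≤ RInj) :
    X = Iso ∨ X = IS ∨ X = Ind.rlp ∨ X = RInj := by
  by_cases hS : X tS
  · by_cases hI : X tI
    · right; right; right
      apply le_antisymm h
      apply hX.le_of_llp
      intro A B f hf
      exact ⟨llp_le_Ind hS f hf, llp_le_Inj hI f hf⟩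
    · right; right; left
      apply le_antisymm
      · exact (le_inf h (le_T0F hX hI)).trans RInj_T0F_le
      · exact hX.le_of_llp (llp_le_Ind hS)
  · have h1 := le_IS hX (h.trans RInj_le_Gen) hS
    by_cases hI : X tI
    · right; left
      apply le_antisymm h1
      rw [← Inj_rlp_eq]
      exact hX.le_of_llp (llp_le_Inj hI)
    · left
      apply le_antisymm _ hX.iso
      intro A B f hf
      have h2 := h1 f hf
      refine iso_of_IS_Inj f h2 fun x y hxy => ?_
      refine le_T0F hX hI f hf x y hxy ?_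
      have h3 : IsInducing f := h2.2
      rw [← h3.inseparable_iff, hxy]

/-! ### Left classes inside `Ind` -/

lemma Ind_llp_of_bijective {A B : TopCat.{u}} (f : A ⟶ B) (hf : Function.Bijective f) :
    Ind.llp f := by
  rw [llp_iff]
  intro X Y g hg u v hu hv huv
  have hg' : IsInducing g := hg
  obtain ⟨i, hi1, hi2⟩ := Function.bijective_iff_has_inverse.1 hf
  have h1 : ∀ b, g (u (i b)) = v b := fun b => by rw [huv, hi2]
  refine ⟨fun b => u (i b), ?_, fun a => congrArg u (hi1 a), h1⟩
  rw [hg'.continuous_iff]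
  have : g ∘ (fun b => u (i b)) = v := funext h1
  rw [this]
  exact hv

lemma Ind_llp_cM : Ind.{u}.llp cM := by
  apply Ind_llp_of_bijective
  constructor
  · intro p q hpq
    change cFun p = cFun q at hpq
    rcases S_cases p with rfl | rfl <;> rcases S_cases q with rfl | rfl
    · rfl
    · rw [cFun_true, cFun_false] at hpq
      exact (i0_ne_i1 hpq).elim
    · rw [cFun_true, cFun_false] at hpq
      exact (i0_ne_i1 hpq.symm).elim
    · rfl
  · intro i
    rcases I2_cases i with rfl | rfl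
    · exact ⟨⟨True⟩, cFun_true⟩
    · exact ⟨⟨False⟩, cFun_false⟩

lemma Ind_llp_rlp_le : Ind.{u}.llp.rlp ≤ Ind := by
  intro A B f h
  refine inducing_of_id (rlp_test h _ (continuous_toInduced f) ?_)
  exact Ind_llp_of_bijective _ Function.bijective_id

lemma Ind_rlp_llp_le : Ind.{u}.rlp.llp ≤ Ind := llp_le_Ind Ind_rlp_tS

lemma Ind_rlp_rlp_le : Ind.{u}.rlp.rlp ≤ T1F :=
  fun _ _ f hf => T1F_of_S ((rlp_iff f).1 hf tS Ind_rlp_tS)

/-- (N7) -/
lemma N7 {D : MorphismProperty TopCat.{u}} (hD : IsL D) {A B : TopCat.{u}} (h : A ⟶ B)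
    (hh : D h) (b0 : B) (hb0 : b0 ∉ range h) : D.llp ≤ CD := by
  classical
  by_cases ht : D emptyToPoint
  · rw [← DSum_llp_eq]
    exact MorphismProperty.antitone_llp (DSum_le_of_t0 hD ht)
  have hA : Nonempty A := by
    by_contra hA
    exact (le_NE hD ht h hh (not_nonempty_iff.1 hA)).false b0
  obtain ⟨a0⟩ := hA
  intro A' B' f hf U hU hfU
  obtain ⟨k, -, -, hk⟩ := (llp_iff f).1 hf h hh (fun _ => a0)
    (fun b => if b ∈ U then h a0 else b0) continuous_const (cont_ite_clopen hU _ _) (by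
      intro a
      rw [if_pos (hfU (mem_range_self a))])
  ext b
  refine ⟨fun _ => trivial, fun _ => ?_⟩
  by_contra hb
  have h1 := hk b
  rw [if_neg hb] at h1
  exact hb0 ⟨_, h1⟩

/-! ### Left classes between `ClEmb` and `Ind` -/

/-- (P1) -/
lemma P1 {D : MorphismProperty TopCat.{u}} (hD : IsL D) (hk : ¬ D kM) {X Y : TopCat.{u}}
    (g : X ⟶ Y) (hg : D g) (y : Y) (hy : y ∉ range g) (hcl : y ∈ closure (range g)) (x0 : X) :
    ¬ y ⤳ g x0 := by
  classical
  intro hsp
  apply hk
  refine hD.mem hg fun {M N} p hp => ?_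
  intro u v hu hv huv
  obtain ⟨K, hK, hK1, hK2⟩ := hp (fun _ => u PUnit.unit)
    (fun z => v (if z ∈ range g then i0 else i1)) continuous_const (hv.comp (continuous_I2 _)) (by
      intro x
      rw [if_pos (mem_range_self x)]
      exact huv PUnit.unit)
  have h1 : p (K y) = v i1 := by
    rw [hK2, if_neg hy]
  have h2 : u PUnit.unit ⤳ K y := by
    rw [specializes_iff_forall_open]
    intro O hO hyO
    obtain ⟨z, hz, ⟨x, rfl⟩⟩ := mem_closure_iff.1 hcl _ (hO.preimage hK) hyO
    change K (g x) ∈ O at hz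
    rw [hK1] at hz
    exact hz
  have h3 : K y ⤳ u PUnit.unit := by
    have := hsp.map hK
    rwa [hK1] at this
  have h4 : p (u PUnit.unit) = v i0 := huv PUnit.unit
  refine ⟨fun i => if i = i0 then u PUnit.unit else K y, ?_, fun _ => if_pos rfl, fun i => ?_⟩
  · apply cont_of_insep
    rw [if_pos rfl, if_neg (Ne.symm i0_ne_i1)]
    exact h2.antisymm h3
  · rcases I2_cases i with rfl | rfl
    · change p (if i0 = i0 then u PUnit.unit else K y) = _
      rw [if_pos rfl, h4]
    · change p (if i1 = i0 then u PUnit.unit else K y) = _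
      rw [if_neg (Ne.symm i0_ne_i1), h1]

/-- (P2) -/
lemma P2 {D : MorphismProperty TopCat.{u}} (hD : IsL D) (hk : ¬ D kM) (hs : ¬ D sM)
    {X Y : TopCat.{u}} (g : X ⟶ Y) (hg : D g) : IsClosed (range g) := by
  classical
  apply isClosed_of_closure_subset
  intro y hcl
  by_contra hy
  have hP1 := P1 hD hk g hg y hy hcl
  apply hs
  refine hD.mem hg fun {M N} p hp => ?_
  intro u v hu hv huv
  have hopen : IsOpen (closure {y})ᶜ := isClosed_closure.isOpen_compl
  have hmem : ∀ x, g x ∈ (closure {y})ᶜ := by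
    intro x hx
    exact hP1 x (specializes_iff_mem_closure.2 hx)
  obtain ⟨K, hK, hK1, hK2⟩ := hp (fun _ => u PUnit.unit)
    (fun z => v ⟨z ∈ (closure {y})ᶜ⟩) continuous_const (hv.comp (cont_chi hopen)) (by
      intro x
      rw [eq_true (hmem x)]
      exact huv PUnit.unit)
  have h1 : p (K y) = v ⟨False⟩ := by
    rw [hK2, eq_false (fun h : y ∈ (closure {y})ᶜ => h (subset_closure rfl))]
  have h2 : u PUnit.unit ⤳ K y := by
    rw [specializes_iff_forall_open]
    intro O hO hyO
    obtain ⟨z, hz, ⟨x, rfl⟩⟩ := mem_closure_iff.1 hcl _ (hO.preimage hK) hyO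
    change K (g x) ∈ O at hz
    rw [hK1] at hz
    exact hz
  have h4 : p (u PUnit.unit) = v ⟨True⟩ := huv PUnit.unit
  refine ⟨fun i => if i.down then u PUnit.unit else K y, ?_, fun _ => if_pos trivial,
    fun i => ?_⟩
  · apply cont_of_spec
    rw [if_pos trivial, if_neg id]
    exact h2
  · rcases S_cases i with rfl | rfl
    · exact (congrArg p (if_pos trivial)).trans h4
    · exact (congrArg p (if_neg id)).trans h1

lemma lift_Ind {A B X Y : TopCat.{u}} (f : A ⟶ B) (g : X ⟶ Y) (hg : IsInducing g) (u : A → X)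
    (v : B → Y) (hv : Continuous v) (huv : ∀ a, g (u a) = v (f a))
    (hi : ∀ a a', f a = f a' → u a = u a')
    (hr : ∀ b, b ∉ range f → ∃ x, g x = v b) :
    ∃ k : B → X, Continuous k ∧ (∀ a, k (f a) = u a) ∧ ∀ b, g (k b) = v b := by
  classical
  let k : B → X := fun b => if hb : ∃ a, f a = b then u hb.choose else
    (hr b fun h => hb h).choose
  have hk1 : ∀ a, k (f a) = u a := by
    intro a
    have hb : ∃ a', f a' = f a := ⟨a, rfl⟩
    simp only [k, dif_pos hb]
    exact hi _ _ hb.choose_spec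
  have hk2 : ∀ b, g (k b) = v b := by
    intro b
    by_cases hb : ∃ a, f a = b
    · obtain ⟨a, rfl⟩ := hb
      rw [hk1, huv]
    · simp only [k, dif_neg hb]
      exact (hr b fun h => hb h).choose_spec
  refine ⟨k, ?_, hk1, hk2⟩
  rw [hg.continuous_iff]
  have : g ∘ k = v := funext hk2
  rw [this]
  exact hv

lemma N8u {D : MorphismProperty TopCat.{u}} (hD : IsL D) (hI : D ≤ Ind) {A B : TopCat.{u}}
    (f : A ⟶ B) (hinj : D tI → Inj f) (hsurj : D kM → Surj f) (hs : D sM → W0 f)
    (hd : Dns f) : D.llp f := by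
  rw [llp_iff]
  intro X Y g hg u v hu hv huv
  have hg' : IsInducing g := hI g hg
  refine lift_Ind f g hg' u v hv huv (fun a a' haa => ?_) fun b hb => ?_
  · by_cases h : D tI
    · rw [hinj h haa]
    · apply N1 hD h g hg
      rw [huv, huv, haa]
  · by_cases hk : D kM
    · exact (hb (hsurj hk b)).elim
    · by_contra hy
      push Not at hy
      have hy' : v b ∉ range g := fun ⟨x, hx⟩ => hy x hx
      have hcl : v b ∈ closure (range g) := by
        have h1 : b ∈ closure (range f) := hd b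
        have h2 : v b ∈ closure (v '' range f) := image_closure_subset_closure_image hv ⟨b, h1, rfl⟩
        refine closure_mono ?_ h2
        rintro _ ⟨_, ⟨a, rfl⟩, rfl⟩
        exact ⟨u a, huv a⟩
      by_cases hsD : D sM
      · have h1 := hs hsD (v ⁻¹' (closure {v b})ᶜ)
          (isClosed_closure.isOpen_compl.preimage hv) (by
            rintro _ ⟨a, rfl⟩ hmem
            rw [← huv] at hmem
            exact P1 hD hk g hg _ hy' hcl (u a) (specializes_iff_mem_closure.2 hmem))
        have h2 : b ∈ v ⁻¹' (closure {v b})ᶜ := h1 ▸ mem_univ b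
        exact h2 (subset_closure rfl)
      · have h1 := (P2 hD hk hsD g hg).closure_eq
        rw [h1] at hcl
        exact hy' hcl

lemma N8l {D : MorphismProperty TopCat.{u}} (hC : ClEmb ≤ D) {A B : TopCat.{u}}
    (f : A ⟶ B) (hf : D.llp f) :
    (D tI → Inj f) ∧ (D kM → Surj f) ∧ (D sM → W0 f) ∧ Dns f := by
  refine ⟨fun h => llp_le_Inj h f hf, fun h => surj_of_point ((llp_iff f).1 hf kM h),
    fun h V hV hfV => ?_, ?_⟩
  · obtain ⟨k, -, -, hk⟩ := (llp_iff f).1 hf sM h (fun _ => PUnit.unit)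
      (fun b => ⟨b ∈ V⟩) continuous_const (cont_chi hV) (by
        intro a
        change (⟨True⟩ : S.{u}) = _
        rw [eq_true (hfV (mem_range_self a))])
    ext b
    refine ⟨fun _ => trivial, fun _ => ?_⟩
    have h1 : (⟨True⟩ : S.{u}) = ⟨b ∈ V⟩ := hk b
    have h2 := congrArg ULift.down h1
    exact h2.mp trivial
  · rw [← ClEmb_llp_eq]
    exact MorphismProperty.antitone_llp hC f hf

open Classical in
/-- The possible values of `D.llp`. -/
def ZY (i j k : Prop) : MorphismProperty TopCat.{u} := fun _ _ f =>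
  (i → Inj f) ∧ (j → Surj f) ∧ (k → W0 f) ∧ Dns f

/-- (N8) -/
lemma N8 {D : MorphismProperty TopCat.{u}} (hD : IsL D) (hC : ClEmb ≤ D) (hI : D ≤ Ind) :
    D.llp = ZY (D tI) (D kM) (D sM) := by
  ext A B f
  exact ⟨fun hf => N8l hC f hf, fun hf => N8u hD hI f hf.1 hf.2.1 hf.2.2.1 hf.2.2.2⟩

lemma N8r {D : MorphismProperty TopCat.{u}} (hC : ClEmb ≤ D) (hI : D ≤ Ind) :
    D.rlp.rlp.llp = W1 := by
  have h : D.rlp.rlp = T1F := by
    apply le_antisymm
    · have h1 : Ind.rlp ≤ D.rlp := MorphismProperty.antitone_rlp hI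
      exact (MorphismProperty.antitone_rlp h1).trans Ind_rlp_rlp_le
    · rw [← Gen_rlp_eq, ← ClEmb_rlp_eq]
      exact MorphismProperty.antitone_rlp (MorphismProperty.antitone_rlp hC)
  rw [h, W1]

end Q178.QN
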